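import Mathlib

/-!
Weighted counts of 2-dominating independent sets of induced subgraphs, and the branching rules.
-/

namespace Pool.Agent.MP_b8b299_co.H33

open Finset Classical

/-- The weight of a vertex. -/
noncomputable def t : ℝ := (6 : ℝ) ^ (-(1 / 9 : ℝ))

theorem t_pos : 0 < t := Real.rpow_pos_of_pos (by norm_num) _

theorem t9 : t ^ 9 = 1 / 6 := by
  rw [t, ← Real.rpow_natCast, ← Real.rpow_mul (by norm_num)]
  norm_num [Real.rpow_neg_one]

theorem t_lo : 81948 / 100000 < t :=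
  lt_of_pow_lt_pow_left₀ 9 t_pos.le (by rw [t9]; norm_num)

theorem t_hi : t < 819481 / 1000000 :=
  lt_of_pow_lt_pow_left₀ 9 (by norm_num) (by rw [t9]; norm_num)

theorem t_le : t ≤ 1 := by linarith [t_hi]

theorem tb : (81948 / 100000 ≤ t ∧ t ≤ 81949 / 100000) ∧
    (67154 / 100000 ≤ t ^ 2 ∧ t ^ 2 ≤ 67155 / 100000) ∧
    (55031 / 100000 ≤ t ^ 3 ∧ t ^ 3 ≤ 55033 / 100000) ∧
    (45097 / 100000 ≤ t ^ 4 ∧ t ^ 4 ≤ 45099 / 100000) ∧
    (36956 / 100000 ≤ t ^ 5 ∧ t ^ 5 ≤ 36958 / 100000) ∧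
    (30285 / 100000 ≤ t ^ 6 ∧ t ^ 6 ≤ 30286 / 100000) ∧
    (24818 / 100000 ≤ t ^ 7 ∧ t ^ 7 ≤ 24819 / 100000) ∧
    (20337 / 100000 ≤ t ^ 8 ∧ t ^ 8 ≤ 20339 / 100000) ∧ t ^ 9 = 1 / 6 ∧ t ^ 10 = t / 6 ∧
    t ^ 11 = t ^ 2 / 6 ∧ t ^ 12 = t ^ 3 / 6 ∧ t ^ 13 = t ^ 4 / 6 ∧ t ^ 14 = t ^ 5 / 6 ∧
    t ^ 15 = t ^ 6 / 6 ∧ t ^ 16 = t ^ 7 / 6 ∧ t ^ 17 = t ^ 8 / 6 := by
  have lo : ∀ k, (81948 / 100000 : ℝ) ^ k ≤ t ^ k := fun k =>
    pow_le_pow_left₀ (by norm_num) t_lo.le k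
  have hi : ∀ k, t ^ k ≤ (819481 / 1000000 : ℝ) ^ k := fun k =>
    pow_le_pow_left₀ t_pos.le t_hi.le k
  have e : ∀ k, t ^ (9 + k) = t ^ k / 6 := fun k => by rw [pow_add, t9]; ring
  refine ⟨⟨t_lo.le, by linarith [t_hi]⟩, ⟨le_trans ?_ (lo 2), (hi 2).trans ?_⟩,
    ⟨le_trans ?_ (lo 3), (hi 3).trans ?_⟩, ⟨le_trans ?_ (lo 4), (hi 4).trans ?_⟩,
    ⟨le_trans ?_ (lo 5), (hi 5).trans ?_⟩, ⟨le_trans ?_ (lo 6), (hi 6).trans ?_⟩,
    ⟨le_trans ?_ (lo 7), (hi 7).trans ?_⟩, ⟨le_trans ?_ (lo 8), (hi 8).trans ?_⟩, t9,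
    by simpa using e 1, e 2, e 3, e 4, e 5, e 6, e 7, e 8⟩ <;> norm_num

theorem tp_le {k n : ℕ} (h : k ≤ n) : t ^ n ≤ t ^ k := pow_le_pow_of_le_one t_pos.le t_le h

variable {V : Type} (G : SimpleGraph V)

/-- The neighbours of `v` inside `S`. -/
noncomputable def nb (S : Finset V) (v : V) : Finset V := S.filter (G.Adj v)

/-- The degree of `v` inside `S`. -/
noncomputable def deg (S : Finset V) (v : V) : ℕ := #(nb G S v)

/-- The closed neighbourhood of `v` inside `S`. -/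
noncomputable def cn (S : Finset V) (v : V) : Finset V := insert v (nb G S v)

/-- `D` is a 2-dominating independent set of the subgraph induced on `S`. -/
structure Dis (S D : Finset V) : Prop where
  sub : ∀ v ∈ D, v ∈ S
  ind : ∀ u ∈ D, ∀ v ∈ D, ¬G.Adj u v
  dom : ∀ v ∈ S, v ∉ D → ∃ a b, a ≠ b ∧ a ∈ D ∧ b ∈ D ∧ G.Adj v a ∧ G.Adj v b

/-- The sets that are counted. -/
noncomputable def ct (S : Finset V) (P : Finset V → Prop) : Finset (Finset V) :=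
  S.powerset.filter fun D => Dis G S D ∧ P D

/-- The weighted number of sets with the property `P`. -/
noncomputable def r (S : Finset V) (P : Finset V → Prop) : ℝ := #(ct G S P) * t ^ #S

/-- The weighted number of all sets. -/
noncomputable def rho (S : Finset V) : ℝ := r G S fun _ => True

/-- The weighted number of sets that contain `v`. -/
noncomputable def rv (S : Finset V) (v : V) : ℝ := r G S fun D => v ∈ D

/-- The weighted number of sets that meet `W`. -/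
noncomputable def hit (S W : Finset V) : ℝ := r G S fun D => ∃ w ∈ W, w ∈ D

variable {G} {S X W : Finset V} {P Q Q' : Finset V → Prop} {u v w : V} {k : ℕ} {b : ℝ}

theorem mem_nb : u ∈ nb G S v ↔ u ∈ S ∧ G.Adj v u := mem_filter

theorem mem_cn : u ∈ cn G S v ↔ u = v ∨ u ∈ S ∧ G.Adj v u := by rw [cn, mem_insert, mem_nb]

theorem card_cn : #(cn G S v) = deg G S v + 1 :=
  card_insert_of_notMem fun h => G.irrefl (mem_nb.1 h).2

theorem mem_ct {D : Finset V} : D ∈ ct G S P ↔ Dis G S D ∧ P D := by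
  rw [ct, mem_filter, mem_powerset]
  exact ⟨fun h => h.2, fun h => ⟨h.1.sub, h⟩⟩

theorem deg_le (l : List V) (h : ∀ x ∈ S, G.Adj v x → x ∈ l) : deg G S v ≤ l.length :=
  (card_le_card fun x hx => List.mem_toFinset.2 (h x (mem_nb.1 hx).1 (mem_nb.1 hx).2)).trans
    (List.toFinset_card_le l)

theorem le_card (l : List V) (hn : l.Nodup) (h : ∀ x ∈ l, x ∈ X) : l.length ≤ #X := by
  rw [← List.toFinset_card_of_nodup hn]
  exact card_le_card fun x hx => h x (List.mem_toFinset.1 hx)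

theorem le_deg (l : List V) (hn : l.Nodup) (h : ∀ x ∈ l, x ∈ S ∧ G.Adj v x) :
    l.length ≤ deg G S v := le_card l hn fun x hx => mem_nb.2 (h x hx)

theorem exists_nb (l : List V) (h : l.length < deg G S v) : ∃ x ∈ S, G.Adj v x ∧ x ∉ l := by
  by_contra hc
  push Not at hc
  exact absurd (deg_le l hc) (by omega)

theorem full_nb (l : List V) (hn : l.Nodup) (h : ∀ x ∈ l, x ∈ S ∧ G.Adj v x)
    (hd : deg G S v ≤ l.length) : ∀ x ∈ S, G.Adj v x → x ∈ l := by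
  intro x hx ha
  by_contra hc
  have := le_deg (G := G) (S := S) (v := v) (x :: l) (List.nodup_cons.2 ⟨hc, hn⟩)
    (List.forall_mem_cons.2 ⟨⟨hx, ha⟩, h⟩)
  rw [List.length_cons] at this
  omega

theorem deg_mono {T : Finset V} (h : T ⊆ S) : deg G T v ≤ deg G S v :=
  card_le_card (filter_subset_filter _ h)

theorem deg_drop (l : List V) (hn : l.Nodup) (h : ∀ x ∈ l, x ∈ X ∧ x ∈ S ∧ G.Adj v x) :
    deg G (S \ X) v + l.length ≤ deg G S v := by
  rw [← List.toFinset_card_of_nodup hn, deg, ← card_union_of_disjoint]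
  · refine card_le_card fun x hx => ?_
    rcases mem_union.1 hx with hx | hx
    · exact mem_nb.2 ⟨(mem_sdiff.1 (mem_nb.1 hx).1).1, (mem_nb.1 hx).2⟩
    · exact mem_nb.2 (h x (List.mem_toFinset.1 hx)).2
  · exact disjoint_left.2 fun x hx hx' =>
      (mem_sdiff.1 (mem_nb.1 hx).1).2 (h x (List.mem_toFinset.1 hx')).1

theorem deg_keep (h : ∀ x ∈ X, x ∈ S → ¬G.Adj v x) : deg G (S \ X) v = deg G S v := by
  refine congrArg card ?_
  ext x
  simp only [nb, mem_filter, mem_sdiff]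
  exact ⟨fun h' => ⟨h'.1.1, h'.2⟩, fun h' => ⟨⟨h'.1, fun hx => h x hx h'.1 h'.2⟩, h'.2⟩⟩

theorem r_nonneg : 0 ≤ r G S P := mul_nonneg (Nat.cast_nonneg _) (pow_pos t_pos _).le

theorem r_or (h : ∀ D, Dis G S D → P D → Q D ∨ Q' D) : r G S P ≤ r G S Q + r G S Q' := by
  rw [r, r, r, ← add_mul]
  refine mul_le_mul_of_nonneg_right ?_ (pow_pos t_pos _).le
  exact_mod_cast (card_le_card fun D hD => mem_union.2 <|
    (h D (mem_ct.1 hD).1 (mem_ct.1 hD).2).imp (fun h' => mem_ct.2 ⟨(mem_ct.1 hD).1, h'⟩)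
      fun h' => mem_ct.2 ⟨(mem_ct.1 hD).1, h'⟩).trans (card_union_le _ _)

theorem r_zero (h : ∀ D, Dis G S D → ¬P D) : r G S P = 0 := by
  rw [r, eq_empty_of_forall_notMem fun D hD => h D (mem_ct.1 hD).1 (mem_ct.1 hD).2]; simp

theorem r_mono (h : ∀ D, Dis G S D → P D → Q D) : r G S P ≤ r G S Q := by
  have := r_or (Q' := fun _ => False) fun D h1 h2 => .inl (h D h1 h2)
  rwa [r_zero (P := fun _ => False) fun _ _ => id, add_zero] at this

theorem r_or3 {Q'' : Finset V → Prop} (h : ∀ D, Dis G S D → P D → Q D ∨ Q' D ∨ Q'' D) :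
    r G S P ≤ r G S Q + r G S Q' + r G S Q'' := by
  linarith [r_or h, r_or (G := G) (S := S) (P := fun D => Q' D ∨ Q'' D) fun _ _ => id]

theorem r_sum {ι : Type} (s : Finset ι) {Q : ι → Finset V → Prop}
    (h : ∀ D, Dis G S D → P D → ∃ i ∈ s, Q i D) : r G S P ≤ ∑ i ∈ s, r G S (Q i) := by
  induction s using Finset.induction_on generalizing P with
  | empty => rw [r_zero fun D h1 h2 => by simpa using h D h1 h2]; simp
  | insert a s ha ih =>
    rw [sum_insert ha]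
    refine (r_or (Q := Q a) (Q' := fun D => ∃ i ∈ s, Q i D) fun D h1 h2 => ?_).trans
      (add_le_add le_rfl (ih fun _ _ => id))
    simpa using h D h1 h2

theorem r_le_rho : r G S P ≤ rho G S := r_mono fun _ _ _ => trivial

theorem r_cases (P) : r G S P = 0 ∨ ∃ D, Dis G S D ∧ P D := by
  by_cases h : ∃ D, Dis G S D ∧ P D
  · exact .inr h
  · exact .inl (r_zero fun D h1 h2 => h ⟨D, h1, h2⟩)

/-- Removal of a set on which the trace of `D` is known. -/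
theorem r_remove (X A : Finset V) (hX : X ⊆ S) (hk : k ≤ #X)
    (hA : ∀ a ∈ A, ∀ x ∈ S, G.Adj x a → x ∈ X)
    (h : ∀ D, Dis G S D → P D → (∀ x ∈ X, x ∈ D ↔ x ∈ A) ∧ Q (D \ X))
    (hb : r G (S \ X) Q ≤ b) : r G S P ≤ t ^ k * b := by
  have h1 : #(ct G S P) ≤ #(ct G (S \ X) Q) := by
    refine card_le_card_of_injOn (· \ X) (fun D hD => ?_) fun D hD E hE e => ?_
    · obtain ⟨hD, hP⟩ := mem_ct.1 hD
      obtain ⟨h1, h2⟩ := h D hD hP
      refine mem_ct.2 ⟨⟨fun v hv => mem_sdiff.2 ⟨hD.sub v (mem_sdiff.1 hv).1, (mem_sdiff.1 hv).2⟩,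
        fun u hu v hv => hD.ind u (mem_sdiff.1 hu).1 v (mem_sdiff.1 hv).1, fun v hv hv' => ?_⟩, h2⟩
      obtain ⟨hv1, hv2⟩ := mem_sdiff.1 hv
      obtain ⟨a, c, hac, ha, hc, h3, h4⟩ := hD.dom v hv1 fun h' => hv' (mem_sdiff.2 ⟨h', hv2⟩)
      exact ⟨a, c, hac, mem_sdiff.2 ⟨ha, fun hx => hv2 (hA a ((h1 a hx).1 ha) v hv1 h3)⟩,
        mem_sdiff.2 ⟨hc, fun hx => hv2 (hA c ((h1 c hx).1 hc) v hv1 h4)⟩, h3, h4⟩
    · have hD' := (h D (mem_ct.1 hD).1 (mem_ct.1 hD).2).1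
      have hE' := (h E (mem_ct.1 hE).1 (mem_ct.1 hE).2).1
      ext x
      by_cases hx : x ∈ X
      · rw [hD' x hx, hE' x hx]
      · simpa [hx] using Finset.ext_iff.1 e x
  have h2 : #S = #X + #(S \ X) := by rw [card_sdiff_of_subset hX]; have := card_le_card hX; omega
  calc r G S P = t ^ #X * (#(ct G S P) * t ^ #(S \ X)) := by rw [r, h2, pow_add]; ring
    _ ≤ t ^ k * r G (S \ X) Q := by
      refine mul_le_mul (tp_le hk) ?_ (mul_nonneg (Nat.cast_nonneg _) (pow_pos t_pos _).le)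
        (pow_pos t_pos _).le
      exact mul_le_mul_of_nonneg_right (by exact_mod_cast h1) (pow_pos t_pos _).le
    _ ≤ _ := mul_le_mul_of_nonneg_left hb (pow_pos t_pos _).le

/-- Removal of the closed neighbourhood of a vertex of `D`. -/
theorem r_vertex (hu : u ∈ S) (hk : k ≤ deg G S u + 1)
    (h : ∀ D, Dis G S D → P D → u ∈ D ∧ Q (D \ cn G S u))
    (hb : r G (S \ cn G S u) Q ≤ b) : r G S P ≤ t ^ k * b := by
  refine r_remove (cn G S u) {u} (fun x hx => ?_) (by rwa [card_cn]) (fun a ha x hx h' => ?_)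
    (fun D hD hP => ⟨fun x hx => ?_, (h D hD hP).2⟩) hb
  · rcases mem_cn.1 hx with rfl | hx
    exacts [hu, hx.1]
  · rw [mem_singleton.1 ha] at h'
    exact mem_cn.2 (.inr ⟨hx, h'.symm⟩)
  · rw [mem_singleton]
    rcases mem_cn.1 hx with rfl | hx
    · simp [(h D hD hP).1]
    · exact ⟨fun h' => absurd hx.2 (hD.ind _ (h D hD hP).1 _ h'), fun e => (G.irrefl (e ▸ hx.2)).elim⟩

theorem rv_rho (hu : u ∈ S) (hk : k ≤ deg G S u + 1) (hb : rho G (S \ cn G S u) ≤ b) :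
    rv G S u ≤ t ^ k * b := r_vertex hu hk (fun _ _ h => ⟨h, trivial⟩) hb

/-- A neighbour of a vertex of `D` has a second neighbour in `D`. -/
theorem rv_hit (hu : u ∈ S) (hw : w ∈ S) (h : G.Adj u w) (hk : k ≤ deg G S u + 1)
    (hb : hit G (S \ cn G S u) (nb G (S \ cn G S u) w) ≤ b) : rv G S u ≤ t ^ k * b := by
  refine r_vertex hu hk (fun D hD hP => ⟨hP, ?_⟩) hb
  obtain ⟨a, c, hac, ha, hc, h3, h4⟩ := hD.dom w hw fun h' => hD.ind _ hP _ h' h
  have key : ∀ x ∈ D, x ≠ u → G.Adj w x → ∃ y ∈ nb G (S \ cn G S u) w, y ∈ D \ cn G S u := by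
    intro x hx hxu hwx
    have : x ∉ cn G S u := fun h' => (mem_cn.1 h').elim hxu fun h' => hD.ind _ hP _ hx h'.2
    exact ⟨x, mem_nb.2 ⟨mem_sdiff.2 ⟨hD.sub x hx, this⟩, hwx⟩, mem_sdiff.2 ⟨hx, this⟩⟩
  by_cases e : a = u
  · exact key c hc (e ▸ hac.symm) h4
  · exact key a ha e h3

theorem card_hit (hu : u ∈ S) (h : G.Adj u w) :
    #(nb G (S \ cn G S u) w) + 1 ≤ deg G S w :=
  deg_drop [u] (by simp) (by simpa using ⟨mem_cn.2 (.inl rfl), hu, h.symm⟩)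

/-- A vertex outside `D` is counted by two of its neighbours. -/
theorem r_half (hv : v ∈ S) : rho G S ≤ rv G S v + 1 / 2 * ∑ u ∈ nb G S v, rv G S u := by
  have h1 : rho G S ≤ rv G S v + r G S fun D => v ∉ D := r_or fun D _ _ => Classical.em _
  have h2 : 2 * #(ct G S fun D => v ∉ D) ≤ ∑ u ∈ nb G S v, #(ct G S fun D => u ∈ D) := by
    have e : ∀ u ∈ nb G S v, #((ct G S fun D => v ∉ D).bipartiteBelow (fun D u => u ∈ D) u) ≤
        #(ct G S fun D => u ∈ D) := fun u _ => card_le_card fun D hD =>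
      mem_ct.2 ⟨(mem_ct.1 (mem_filter.1 hD).1).1, (mem_filter.1 hD).2⟩
    refine le_trans ?_ (sum_le_sum e)
    rw [← sum_card_bipartiteAbove_eq_sum_card_bipartiteBelow, mul_comm, ← smul_eq_mul]
    refine card_nsmul_le_sum _ _ _ fun D hD => ?_
    obtain ⟨a, c, hac, ha, hc, h3, h4⟩ := (mem_ct.1 hD).1.dom v hv (mem_ct.1 hD).2
    exact one_lt_card.2 ⟨a, mem_filter.2 ⟨mem_nb.2 ⟨(mem_ct.1 hD).1.sub a ha, h3⟩, ha⟩, c,
      mem_filter.2 ⟨mem_nb.2 ⟨(mem_ct.1 hD).1.sub c hc, h4⟩, hc⟩, hac⟩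
  have h3 : (2 : ℝ) * #(ct G S fun D => v ∉ D) ≤ ∑ u ∈ nb G S v, (#(ct G S fun D => u ∈ D) : ℝ) := by
    exact_mod_cast h2
  have h4 := mul_le_mul_of_nonneg_right h3 (pow_pos t_pos #S).le
  rw [sum_mul] at h4
  refine h1.trans (add_le_add le_rfl ?_)
  simp only [rv, r]
  linarith

theorem half_list (hv : v ∈ S) (l : List V) (h : ∀ x ∈ S, G.Adj v x → x ∈ l) :
    rho G S ≤ rv G S v + 1 / 2 * (l.map (rv G S)).sum := by
  have h1 : ∑ u ∈ nb G S v, rv G S u ≤ ∑ u ∈ l.toFinset, rv G S u :=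
    sum_le_sum_of_subset_of_nonneg
      (fun x hx => List.mem_toFinset.2 (h x (mem_nb.1 hx).1 (mem_nb.1 hx).2)) fun _ _ _ => r_nonneg
  have h2 : ∀ l : List V, ∑ u ∈ l.toFinset, rv G S u ≤ (l.map (rv G S)).sum := by
    intro l
    induction l with
    | nil => simp
    | cons a l ih =>
      rw [List.toFinset_cons, List.map_cons, List.sum_cons]
      by_cases ha : a ∈ l.toFinset
      · rw [insert_eq_of_mem ha]; linarith [show 0 ≤ rv G S a from r_nonneg]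
      · rw [sum_insert ha]; linarith
  linarith [r_half (G := G) hv, h2 l]

theorem half_le (hv : v ∈ S) (hd : deg G S v ≤ k) (hb : 0 ≤ b)
    (h : ∀ x ∈ S, G.Adj v x → rv G S x ≤ b) : rho G S ≤ rv G S v + k / 2 * b := by
  have h1 := sum_le_card_nsmul (nb G S v) (rv G S) b fun x hx => h x (mem_nb.1 hx).1 (mem_nb.1 hx).2
  rw [nsmul_eq_mul] at h1
  have h2 : (#(nb G S v) : ℝ) * b ≤ k * b := mul_le_mul_of_nonneg_right (by exact_mod_cast hd) hb
  linarith [r_half (G := G) hv]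

end Pool.Agent.MP_b8b299_co.H33
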