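import Pool.Agent.MP_b8b299_co.H33.Basic

/-!
The inductive statement, forcing, and the two exceptional components.
-/

namespace Pool.Agent.MP_b8b299_co.H33

open Finset

/-- The cells of the board. -/
abbrev Cell : Type := Fin 3 × Fin 3

/-- Two cells in one row or one column. -/
def rk (p q : Cell) : Prop := p ≠ q ∧ (p.1 = q.1 ∨ p.2 = q.2)

instance : DecidableRel rk := fun _ _ => by unfold rk; infer_instance

/-- The six transversals. -/
def tr (i : Fin 6) : Finset Cell :=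
  ![{(0, 0), (1, 1), (2, 2)}, {(0, 0), (1, 2), (2, 1)}, {(0, 1), (1, 0), (2, 2)},
    {(0, 1), (1, 2), (2, 0)}, {(0, 2), (1, 0), (2, 1)}, {(0, 2), (1, 1), (2, 0)}] i

set_option synthInstance.maxSize 2000 in
theorem dec1 : ∀ T : Finset Cell, (∀ p ∈ T, ∀ q ∈ T, ¬rk p q) →
    (∀ p ∉ T, ∃ a ∈ T, ∃ b ∈ T, a ≠ b ∧ rk p a ∧ rk p b) → ∃ i, T = tr i := by decide +kernel

theorem dec2 : ∀ T : Finset Cell, #{i | ∃ p ∈ tr i, p ∈ T} ≤ 2 * #T := by decide +kernel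

set_option synthInstance.maxSize 2000 in
theorem dec3 : ∀ T : Finset Cell, #T ≤ 4 → #{i | ∃ p ∈ tr i, p ∈ T} ≤ 5 ∨
    (∃ p ∈ T, ∃ q ∈ T, ∃ s ∈ T, rk p q ∧ rk q s ∧ rk p s ∧ ∃ o ∉ T, rk o p) ∨
    ∃ p ∈ T, ∃ q ∈ T, ∃ s ∈ T, ∃ u ∈ T, #T = 4 ∧ T = {p, q, s, u} ∧ rk p q ∧ rk q s ∧ rk s u ∧
      rk u p ∧ 8 ≤ #{y | y = p ∨ y = s ∨ rk y p ∨ rk y s} ∧
      8 ≤ #{y | y = q ∨ y = u ∨ rk y q ∨ rk y u} := by decide +kernel

theorem dec4 : ∀ p : Cell, #{q | rk p q} = 4 := by decide +kernel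

open Classical

variable {V : Type} (G : SimpleGraph V)

/-- The four vertices form a component that is a cycle. -/
structure C4 (S : Finset V) (a b c d : V) : Prop where
  ma : a ∈ S
  mb : b ∈ S
  mc : c ∈ S
  md : d ∈ S
  ac : a ≠ c
  bd : b ≠ d
  na : ∀ x ∈ S, G.Adj a x ↔ x = b ∨ x = d
  nb : ∀ x ∈ S, G.Adj b x ↔ x = a ∨ x = c
  nc : ∀ x ∈ S, G.Adj c x ↔ x = b ∨ x = d
  nd : ∀ x ∈ S, G.Adj d x ↔ x = a ∨ x = c

/-- The vertex lies in a component that is a cycle of length four. -/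
def InC4 (S : Finset V) (v : V) : Prop := ∃ b c d, C4 G S v b c d

/-- The nine vertices form a component that is a rook graph. -/
structure Rook (S : Finset V) (f : Cell → V) : Prop where
  inj : Function.Injective f
  mem : ∀ p, f p ∈ S
  adj : ∀ p, ∀ x ∈ S, G.Adj (f p) x ↔ ∃ q, rk p q ∧ x = f q

/-- The vertex lies in a component that is a rook graph. -/
def InRook (S : Finset V) (v : V) : Prop := ∃ f, Rook G S f ∧ ∃ p, f p = v

/-- The inductive statement. -/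
structure Good (S : Finset V) : Prop where
  p0 : rho G S ≤ 1
  p3 : ∀ v ∈ S, deg G S v ≤ 3 → rho G S ≤ 2 * t ^ 4
  pb : ∀ v ∈ S, deg G S v ≤ 3 → ¬InC4 G S v → rho G S ≤ 943 / 500 * t ^ 4
  p4 : ∀ v ∈ S, deg G S v ≤ 4 → ¬InRook G S v → rho G S ≤ 943 / 1000

/-- All proper subsets are good. -/
def IH (S : Finset V) : Prop := ∀ T ⊂ S, Good G T

/-- All subsets are good. -/
def All (S : Finset V) : Prop := ∀ T ⊆ S, Good G T

variable {G} {S X W : Finset V} {P : Finset V → Prop} {u v w a b c d : V} {k : ℕ}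

theorem All.ih (h : All G S) : IH G S := fun T hT => h T hT.subset

theorem All.good (h : All G S) : Good G S := h S Subset.rfl

theorem IH.all (h : IH G S) (hv : v ∈ S) (hX : v ∈ X) : All G (S \ X) := fun T hT =>
  h T ⟨hT.trans sdiff_subset, fun h' => (mem_sdiff.1 (hT (h' hv))).2 hX⟩

theorem IH.cn (h : IH G S) (hv : v ∈ S) : All G (S \ cn G S v) := h.all hv (mem_cn.2 (.inl rfl))

theorem IH.rv (h : IH G S) (hu : u ∈ S) (hk : k ≤ deg G S u + 1) : rv G S u ≤ t ^ k := by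
  simpa using rv_rho hu hk (h.cn hu).good.p0

theorem mem_rest : w ∈ S \ cn G S u ↔ w ∈ S ∧ w ≠ u ∧ ¬G.Adj u w := by
  rw [mem_sdiff, mem_cn]; tauto

/-- Vertices that are forced into `D`, and their neighbours, can be removed. -/
theorem IH.force' (ih : IH G S) (F : List V) (Y : Finset V) (hk : k ≤ #Y) (h0 : 0 < k)
    (hF : ∀ D, Dis G S D → P D → ∀ f ∈ F, f ∈ D)
    (hY : ∀ y ∈ Y, y ∈ S ∧ (y ∈ F ∨ ∃ f ∈ F, G.Adj y f)) : r G S P ≤ t ^ k := by
  let X := S.filter fun y => y ∈ F ∨ ∃ f ∈ F, G.Adj y f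
  have hYX : Y ⊆ X := fun y hy => mem_filter.2 (hY y hy)
  obtain ⟨y, hy⟩ := card_pos.1 (h0.trans_le hk)
  have := r_remove (P := P) (Q := fun _ => True) X F.toFinset (filter_subset _ _)
    (hk.trans (card_le_card hYX))
    (fun a ha x hx h => mem_filter.2 ⟨hx, .inr ⟨a, List.mem_toFinset.1 ha, h⟩⟩)
    (fun D hD hP => ⟨fun x hx => ⟨fun h => ?_, fun h => hF D hD hP x (List.mem_toFinset.1 h)⟩,
      trivial⟩) (ih.all (hY y hy).1 (hYX hy)).good.p0
  · simpa using this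
  · rcases (mem_filter.1 hx).2 with h' | ⟨f, hf, h'⟩
    · exact List.mem_toFinset.2 h'
    · exact absurd h' (hD.ind _ h _ (hF D hD hP f hf))

theorem IH.force (ih : IH G S) (F l : List V) (hk : k = l.length) (h0 : 0 < k) (hn : l.Nodup)
    (hF : ∀ D, Dis G S D → P D → ∀ f ∈ F, f ∈ D)
    (hY : ∀ y ∈ l, y ∈ S ∧ (y ∈ F ∨ ∃ f ∈ F, G.Adj y f)) : r G S P ≤ t ^ k :=
  ih.force' F l.toFinset (hk ▸ (List.toFinset_card_of_nodup hn).ge) h0 hF fun y hy =>
    hY y (List.mem_toFinset.1 hy)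

theorem IH.force_cn (ih : IH G S) (F l : List V) (hu : u ∈ S) (hk : k ≤ deg G S u + 1 + l.length)
    (h0 : 0 < k) (hn : l.Nodup) (hF : ∀ D, Dis G S D → P D → ∀ f ∈ u :: F, f ∈ D)
    (hY : ∀ y ∈ l, y ∈ S ∧ y ≠ u ∧ ¬G.Adj u y ∧ (y ∈ F ∨ ∃ f ∈ F, G.Adj y f)) :
    r G S P ≤ t ^ k := by
  refine ih.force' (u :: F) (H33.cn G S u ∪ l.toFinset) ?_ h0 hF fun y hy => ?_
  · rwa [card_union_of_disjoint, card_cn, List.toFinset_card_of_nodup hn]
    refine disjoint_left.2 fun y hy hy' => ?_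
    have := hY y (List.mem_toFinset.1 hy')
    exact (mem_cn.1 hy).elim this.2.1 fun h => this.2.2.1 h.2
  · rcases mem_union.1 hy with hy | hy
    · rcases mem_cn.1 hy with rfl | hy
      · exact ⟨hu, .inl (by simp)⟩
      · exact ⟨hy.1, .inr ⟨u, by simp, hy.2.symm⟩⟩
    · obtain ⟨h1, -, -, h2⟩ := hY y (List.mem_toFinset.1 hy)
      exact ⟨h1, h2.imp (List.mem_cons_of_mem _) fun ⟨f, hf, h⟩ => ⟨f, List.mem_cons_of_mem _ hf, h⟩⟩

/-- The union bound. -/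
theorem IH.union (ih : IH G S) {n : ℕ} (hn : #W ≤ n) (h : ∀ w ∈ W, w ∈ S ∧ k ≤ deg G S w + 1) :
    hit G S W ≤ n * t ^ k := by
  refine (r_sum W (Q := fun w D => w ∈ D) fun _ _ => id).trans ?_
  refine (sum_le_card_nsmul W _ (t ^ k) fun w hw => ih.rv (h w hw).1 (h w hw).2).trans ?_
  rw [nsmul_eq_mul]
  exact mul_le_mul_of_nonneg_right (by exact_mod_cast hn) (pow_pos t_pos _).le

theorem C4.rot (h : C4 G S a b c d) : C4 G S b c d a :=
  ⟨h.mb, h.mc, h.md, h.ma, h.bd, h.ac.symm, fun x hx => (h.nb x hx).trans or_comm, h.nc,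
    fun x hx => (h.nd x hx).trans or_comm, h.na⟩

theorem C4.ab (h : C4 G S a b c d) : G.Adj a b := (h.na b h.mb).2 (.inl rfl)
theorem C4.bc (h : C4 G S a b c d) : G.Adj b c := h.rot.ab
theorem C4.cd (h : C4 G S a b c d) : G.Adj c d := h.rot.rot.ab
theorem C4.da (h : C4 G S a b c d) : G.Adj d a := h.rot.rot.rot.ab

theorem C4.nodup (h : C4 G S a b c d) : [a, b, c, d].Nodup := by
  simp [h.ab.ne, h.bc.ne, h.cd.ne, h.da.ne', h.ac, h.bd]

theorem InC4.deg (h : InC4 G S v) : deg G S v = 2 := by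
  obtain ⟨b, c, d, h⟩ := h
  exact le_antisymm (deg_le [b, d] fun x hx h' => by simpa using (h.na x hx).1 h')
    (le_deg [b, d] (by simp [h.bd]) (by simp [h.mb, h.md, h.ab, h.da.symm]))

theorem InC4.adj (h : InC4 G S v) (hw : w ∈ S) (h' : G.Adj v w) : InC4 G S w := by
  obtain ⟨b, c, d, h⟩ := h
  rcases (h.na w hw).1 h' with rfl | rfl
  exacts [⟨_, _, _, h.rot⟩, ⟨_, _, _, h.rot.rot.rot⟩]

/-- The trace of a set on a cycle component is one of the two diagonals. -/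
theorem C4.split (h : C4 G S a b c d) {D : Finset V} (hD : Dis G S D) :
    (a ∈ D ∧ c ∈ D ∧ b ∉ D ∧ d ∉ D) ∨ b ∈ D ∧ d ∈ D ∧ a ∉ D ∧ c ∉ D := by
  have h1 := hD.dom a h.ma
  have h2 := hD.dom c h.mc
  have := hD.ind
  have := hD.sub
  have := h.ab; have := h.bc; have := h.cd; have := h.da
  have := h.na; have := h.nc
  grind [SimpleGraph.Adj.symm]

theorem C4.diag (h : C4 G S a b c d) {Q : Finset V → Prop} {x : ℝ}
    (hQ : ∀ D, Dis G S D → P D → a ∈ D ∧ Q (D \ {a, b, c, d}))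
    (hx : r G (S \ {a, b, c, d}) Q ≤ x) : r G S P ≤ t ^ 4 * x := by
  refine r_remove {a, b, c, d} {a, c} (by simp [subset_iff, h.ma, h.mb, h.mc, h.md])
    (le_card [a, b, c, d] h.nodup (by simp)) (fun y hy z hz hzy => ?_)
    (fun D hD hP => ⟨fun y hy => ?_, (hQ D hD hP).2⟩) hx
  · have := h.na z hz; have := h.nc z hz
    grind [SimpleGraph.Adj.symm]
  · have := h.split hD; have := (hQ D hD hP).1; have := h.nodup
    grind

theorem C4.rho (h : C4 G S a b c d) {x : ℝ} (hx : rho G (S \ {a, b, c, d}) ≤ x) :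
    rho G S ≤ 2 * t ^ 4 * x := by
  have e : ({b, c, d, a} : Finset V) = {a, b, c, d} := by ext; simp; tauto
  have h1 := h.diag (P := fun D => a ∈ D) (fun D _ h => ⟨h, trivial⟩) hx
  have h2 := h.rot.diag (P := fun D => b ∈ D) (fun D _ h => ⟨h, trivial⟩) (e ▸ hx)
  linarith [show H33.rho G S ≤ _ from r_or (Q := fun D => a ∈ D) (Q' := fun D => b ∈ D)
    fun D hD _ => (h.split hD).imp And.left And.left]

theorem Rook.rk {f : Cell → V} (h : Rook G S f) {p q : Cell} : G.Adj (f p) (f q) ↔ rk p q := by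
  rw [h.adj p _ (h.mem q)]
  exact ⟨fun ⟨q', h1, h2⟩ => h.inj h2 ▸ h1, fun h1 => ⟨q, h1, rfl⟩⟩

theorem InRook.deg (h : InRook G S v) : deg G S v = 4 := by
  obtain ⟨f, h, p, rfl⟩ := h
  rw [← dec4 p, ← card_image_of_injective _ h.inj, H33.deg]
  congr 1
  ext x
  simp only [mem_nb, mem_image, mem_filter, mem_univ, true_and]
  exact ⟨fun h' => ((h.adj p x h'.1).1 h'.2).imp fun q hq => ⟨hq.1, hq.2.symm⟩,
    fun ⟨q, h1, h2⟩ => h2 ▸ ⟨h.mem q, h.rk.2 h1⟩⟩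

theorem InRook.adj (h : InRook G S v) (hw : w ∈ S) (h' : G.Adj v w) : InRook G S w := by
  obtain ⟨f, h, p, rfl⟩ := h
  obtain ⟨q, -, rfl⟩ := (h.adj p w hw).1 h'
  exact ⟨f, h, q, rfl⟩

theorem Rook.keep {f : Cell → V} (h : Rook G S f) (hw : w ∈ S \ univ.image f) :
    deg G (S \ univ.image f) w = deg G S w := by
  refine deg_keep fun x hx _ h' => (mem_sdiff.1 hw).2 ?_
  obtain ⟨p, -, rfl⟩ := mem_image.1 hx
  obtain ⟨q, -, rfl⟩ := (h.adj p w (mem_sdiff.1 hw).1).1 h'.symm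
  exact mem_image_of_mem _ (mem_univ q)

theorem Rook.sum {f : Cell → V} (h : Rook G S f) (Q : Fin 6 → Finset V → Prop) (x : Fin 6 → ℝ)
    (hQ : ∀ i D, P D → (∀ p, f p ∈ D ↔ p ∈ tr i) → Q i (D \ univ.image f))
    (hx : ∀ i, r G (S \ univ.image f) (Q i) ≤ x i) : r G S P ≤ (∑ i, x i) / 6 := by
  refine (r_sum univ (Q := fun i D => P D ∧ ∀ p, f p ∈ D ↔ p ∈ tr i) fun D hD hP => ?_).trans ?_
  · obtain ⟨i, hi⟩ := dec1 {p | f p ∈ D}
      (fun p hp q hq h' => hD.ind _ (mem_filter.1 hp).2 _ (mem_filter.1 hq).2 (h.rk.2 h'))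
      fun p hp => by
        obtain ⟨a, b, hab, ha, hb, h1, h2⟩ := hD.dom _ (h.mem p) (by simpa using hp)
        obtain ⟨q, hq, rfl⟩ := (h.adj p a (hD.sub a ha)).1 h1
        obtain ⟨q', hq', rfl⟩ := (h.adj p b (hD.sub b hb)).1 h2
        exact ⟨q, by simpa using ha, q', by simpa using hb, fun e => hab (e ▸ rfl), hq, hq'⟩
    exact ⟨i, mem_univ i, hP, fun p => by rw [← hi]; simp⟩
  · rw [sum_div]
    refine sum_le_sum fun i _ => ?_
    rw [div_eq_inv_mul, ← one_div, ← t9]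
    refine r_remove (univ.image f) ((tr i).image f) (fun x hx => ?_)
      (by rw [card_image_of_injective _ h.inj]; simp) (fun a ha x hx h' => ?_)
      (fun D _ hP => ⟨fun y hy => ?_, hQ i D hP.1 hP.2⟩) (hx i)
    · obtain ⟨p, -, rfl⟩ := mem_image.1 hx
      exact h.mem p
    · obtain ⟨p, -, rfl⟩ := mem_image.1 ha
      obtain ⟨q, -, rfl⟩ := (h.adj p x hx).1 h'.symm
      exact mem_image_of_mem _ (mem_univ q)
    · obtain ⟨p, -, rfl⟩ := mem_image.1 hy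
      rw [hP.2 p, h.inj.mem_finset_image]

theorem IH.rook (ih : IH G S) (h : InRook G S v) : rho G S ≤ 1 := by
  obtain ⟨f, h, p, -⟩ := h
  simpa [rho] using h.sum (P := fun _ => True) (fun _ _ => True) (fun _ => 1) (fun _ _ _ _ => trivial)
    fun _ => (ih.all (h.mem p) (mem_image_of_mem _ (mem_univ p))).good.p0

theorem Rook.hit {f : Cell → V} (h : Rook G S f) (hA : All G S) {x : ℝ} (hx1 : x ≤ 1)
    (hx : hit G (S \ univ.image f) (W \ univ.image f) ≤ x)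
    (hk : #{i | ∃ p ∈ tr i, p ∈ ({p | f p ∈ W} : Finset Cell)} ≤ k) :
    hit G S W ≤ (k + (6 - k) * x) / 6 := by
  let I : Finset (Fin 6) := {i | ∃ p ∈ tr i, p ∈ ({p | f p ∈ W} : Finset Cell)}
  refine (h.sum (fun i D => i ∈ I ∨ ∃ w ∈ W \ univ.image f, w ∈ D)
    (fun i => if i ∈ I then 1 else x) (fun i D hw h' => ?_) fun i => ?_).trans ?_
  · obtain ⟨w, hw, hD⟩ := hw
    by_cases hw' : w ∈ univ.image f
    · obtain ⟨p, -, rfl⟩ := mem_image.1 hw'
      exact .inl (mem_filter.2 ⟨mem_univ _, p, (h' p).1 hD, by simpa using hw⟩)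
    · exact .inr ⟨w, mem_sdiff.2 ⟨hw, hw'⟩, mem_sdiff.2 ⟨hD, hw'⟩⟩
  · split_ifs with hi
    · exact r_le_rho.trans (hA _ sdiff_subset).p0
    · exact (r_mono fun D _ h' => h'.resolve_left hi).trans hx
  · have e : ∑ i, (if i ∈ I then 1 else x) = 6 * x + #I * (1 - x) := by
      have : ∀ i, (if i ∈ I then 1 else x) = x + if i ∈ I then 1 - x else 0 := fun i => by
        split_ifs <;> ring
      simp [this, sum_add_distrib]
      ring
    have : (#I : ℝ) * (1 - x) ≤ k * (1 - x) :=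
      mul_le_mul_of_nonneg_right (by exact_mod_cast hk) (by linarith)
    rw [e]
    linarith

end Pool.Agent.MP_b8b299_co.H33
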