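import Pool.Agent.MP_b8b299_co.H33.Good

/-!
Bounds for the sets that meet a given small set of vertices.
-/

namespace Pool.Agent.MP_b8b299_co.H33

open Finset Classical

variable {V : Type} {G : SimpleGraph V} {S W : Finset V} {u v w p q x : V} {k : ℕ} {b : ℝ}

theorem nb2 (h : deg G S v = 2) : ∃ a c, a ≠ c ∧ a ∈ S ∧ c ∈ S ∧ G.Adj v a ∧ G.Adj v c ∧
    ∀ y ∈ S, G.Adj v y → y = a ∨ y = c := by
  obtain ⟨a, h1, h2, -⟩ := exists_nb (G := G) (S := S) (v := v) [] (by simp [h])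
  obtain ⟨c, h3, h4, h5⟩ := exists_nb (G := G) (S := S) (v := v) [a] (by simp [h])
  have hn : a ≠ c := fun e => h5 (by simp [e])
  exact ⟨a, c, hn, h1, h3, h2, h4, by
    simpa using full_nb (G := G) (S := S) (v := v) [a, c] (by simpa) (by simp [*]) h.le⟩

theorem nb3 (h : deg G S v = 3) (hx : x ∈ S) (hv : G.Adj v x) : ∃ a c, x ≠ a ∧ x ≠ c ∧ a ≠ c ∧
    a ∈ S ∧ c ∈ S ∧ G.Adj v a ∧ G.Adj v c ∧ ∀ y ∈ S, G.Adj v y → y = x ∨ y = a ∨ y = c := by
  obtain ⟨a, h1, h2, h6⟩ := exists_nb (G := G) (S := S) (v := v) [x] (by simp [h])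
  obtain ⟨c, h3, h4, h5⟩ := exists_nb (G := G) (S := S) (v := v) [x, a] (by simp [h])
  simp only [List.mem_cons, List.not_mem_nil, or_false, not_or] at h5 h6
  exact ⟨a, c, Ne.symm h6, Ne.symm h5.1, Ne.symm h5.2, h1, h3, h2, h4, by
    simpa using full_nb (G := G) (S := S) (v := v) [x, a, c] (by grind) (by simp [*]) h.le⟩

theorem forced (hv : v ∈ S) (h : deg G S v ≤ 1) {D : Finset V} (hD : Dis G S D) : v ∈ D := by
  by_contra hc
  obtain ⟨a, c, hac, ha, hc, h1, h2⟩ := hD.dom v hv hc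
  have := le_deg (G := G) (S := S) (v := v) [a, c] (by simpa) (by simp [hD.sub, *])
  simp at this
  omega

theorem rho_le_rv (h : ∀ D, Dis G S D → v ∈ D) : rho G S ≤ rv G S v := r_mono fun D hD _ => h D hD

theorem IH.low (ih : IH G S) (hv : v ∈ S) (h : deg G S v ≤ 1) (hk : k ≤ deg G S v + 1) :
    rho G S ≤ t ^ k := (rho_le_rv fun _ => forced hv h).trans (ih.rv hv hk)

theorem IH.rvK (ih : IH G S) (hu : u ∈ S) (hk : k ≤ deg G S u + 1) (hw : w ∈ S \ H33.cn G S u)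
    (h : deg G (S \ H33.cn G S u) w ≤ 3) : H33.rv G S u ≤ t ^ k * (2 * t ^ 4) :=
  rv_rho hu hk ((ih.cn hu).good.p3 w hw h)

theorem IH.rvB (ih : IH G S) (hu : u ∈ S) (hk : k ≤ deg G S u + 1) (hw : w ∈ S) (h1 : w ≠ u)
    (h2 : ¬G.Adj u w) (h3 : ∀ x ∈ S, G.Adj u x → ¬G.Adj w x) (h : deg G S w = 3) :
    H33.rv G S u ≤ t ^ k * (943 / 500 * t ^ 4) := by
  have e : deg G (S \ H33.cn G S u) w = 3 := by
    rw [deg_keep, h]
    intro x hx hx'
    rcases mem_cn.1 hx with rfl | hx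
    exacts [fun h' => h2 h'.symm, h3 x hx' hx.2]
  exact rv_rho hu hk ((ih.cn hu).good.pb w (mem_rest.2 ⟨hw, h1, h2⟩) e.le fun h' => by
    have := h'.deg; omega)

variable (G) in
/-- The weighted number of sets that contain one of two vertices. -/
noncomputable def pr (S : Finset V) (p q : V) : ℝ := r G S fun D => p ∈ D ∨ q ∈ D

theorem pr_comm : pr G S p q = pr G S q p := by simp only [pr, or_comm]

theorem pr_split : pr G S p q ≤ rv G S p + r G S fun D => q ∈ D ∧ p ∉ D :=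
  r_or fun _ _ h => by tauto

theorem rv_pair (hu : u ∈ S) (hw : w ∈ S) (h : G.Adj u w) (hk : k ≤ deg G S u + 1)
    (hn : ∀ x ∈ S, G.Adj w x → x = u ∨ x = p ∨ x = q) (hb : pr G (S \ cn G S u) p q ≤ b) :
    rv G S u ≤ t ^ k * b := by
  refine rv_hit hu hw h hk (le_trans (r_mono fun D _ ⟨x, hx, hD⟩ => ?_) hb)
  obtain ⟨h1, h2⟩ := mem_nb.1 hx
  obtain ⟨h3, h4, -⟩ := mem_rest.1 h1
  rcases hn x h3 h2 with rfl | rfl | rfl
  exacts [absurd rfl h4, .inl hD, .inr hD]

theorem pair2 (ih : IH G S) (hp : p ∈ S) (hq : q ∈ S) (hn : p ≠ q) (ha : ¬G.Adj p q)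
    (h2 : deg G S p = 2) (h2' : 2 ≤ deg G S q) :
    pr G S p q ≤ 943 / 250 * t ^ 8 ∧ (deg G S q ≤ 2 → pr G S p q ≤ 3 * t ^ 7) := by
  obtain ⟨a, c, hac, ma, mc, pa, pc, hp'⟩ := nb2 h2
  have r3 : rv G S p ≤ t ^ 3 := ih.rv hp (by omega)
  have fo : ∀ D, Dis G S D → p ∉ D → a ∈ D ∧ c ∈ D := fun D hD h => by
    have := hD.dom p hp h; have := hD.sub; grind
  by_cases h : G.Adj a c ∨ G.Adj q a ∨ G.Adj q c
  · have : pr G S p q ≤ rv G S p := r_mono fun D hD h' => by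
      have := fo D hD; have := hD.ind; grind
    constructor <;> intros <;> linarith [tb]
  push Not at h
  obtain ⟨h1, h3, h4⟩ := h
  have s : ∀ k ≤ deg G S q + 4, 0 < k → r G S (fun D => q ∈ D ∧ p ∉ D) ≤ t ^ k := fun k hk h0 =>
    ih.force_cn [a, c] [p, a, c] hq hk h0 (by simp [pa.ne, pc.ne, hac])
      (fun D hD h => by simpa [h.1] using fo D hD h.2) (by grind [SimpleGraph.Adj.symm])
  have sp := pr_split (G := G) (S := S) (p := p) (q := q)
  rcases (show 4 ≤ deg G S q ∨ deg G S q = 3 ∨ deg G S q = 2 by omega) with e | e | e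
  · exact ⟨by linarith [tb, s 8 (by omega) (by norm_num)], by omega⟩
  · have := ih.rvB (k := 3) hp (by omega) hq hn.symm ha (by grind) e
    exact ⟨by linarith [tb, s 7 (by omega) (by norm_num)], by omega⟩
  suffices pr G S p q ≤ 3 * t ^ 7 from ⟨by linarith [tb], fun _ => this⟩
  obtain ⟨a', c', hac', ma', mc', qa, qc, hq'⟩ := nb2 e
  by_cases ho : ∃ o ∈ S, G.Adj a o ∧ o ∉ [p, a', c']
  · obtain ⟨o, mo, ao, ho⟩ := ho
    have := ih.rvK (k := 3) hp (by omega) (mem_rest.2 ⟨hq, hn.symm, ha⟩)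
      ((deg_mono sdiff_subset).trans (by omega))
    have := ih.force (P := fun D => q ∈ D ∧ p ∉ D) (k := 7) [q, a, c] [q, a', c', p, a, c, o] rfl
      (by simp) (by simp at ho ⊢; and_intros <;> grind [SimpleGraph.Adj.symm, SimpleGraph.irrefl])
      (fun D hD h => by simpa [h.1] using fo D hD h.2) (by grind [SimpleGraph.Adj.symm])
    linarith
  · have := ih.force (P := fun D => p ∈ D) (k := 6) [p, a', c'] [q, a', c', p, a, c] rfl (by simp)
      (by simp; and_intros <;> grind [SimpleGraph.Adj.symm, SimpleGraph.irrefl])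
      (fun D hD h => by
        have := hD.dom a ma; have := hD.dom q hq; have := hD.ind; have := hD.sub
        grind [SimpleGraph.Adj.symm]) (by grind [SimpleGraph.Adj.symm])
    linarith [tb, s 6 (by omega) (by norm_num), show rv G S p ≤ _ from this]

theorem pair3 (ih : IH G S) (hp : p ∈ S) (hq : q ∈ S) (hn : p ≠ q) (ha : ¬G.Adj p q)
    (h3 : deg G S p = 3) (h3' : 3 ≤ deg G S q) : pr G S p q ≤ 943 / 250 * t ^ 8 := by
  have r4 : rv G S p ≤ t ^ 4 := ih.rv hp (by omega)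
  by_cases h : ∃ x ∈ S, G.Adj p x ∧ G.Adj q x
  · obtain ⟨x, mx, px, qx⟩ := h
    obtain ⟨a, c, xa, xc, hac, ma, mc, pa, pc, hp'⟩ := nb3 h3 mx px
    have fo : ∀ D, Dis G S D → q ∈ D ∧ p ∉ D → q ∈ D ∧ a ∈ D ∧ c ∈ D := fun D hD h => by
      have := hD.dom p hp h.2; have := hD.sub; have := hD.ind; grind
    have : r G S (fun D => q ∈ D ∧ p ∉ D) ≤ t ^ 7 := by
      rcases r_cases (G := G) (S := S) fun D => q ∈ D ∧ p ∉ D with e | ⟨D, hD, e⟩
      · linarith [tb]
      have := fo D hD e; have := hD.ind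
      exact ih.force_cn [a, c] [p, a, c] hq (by simp; omega) (by norm_num)
        (by simp [pa.ne, pc.ne, hac]) (fun D hD h => by simpa using fo D hD h)
        (by grind [SimpleGraph.Adj.symm])
    linarith [tb, pr_split (G := G) (S := S) (p := p) (q := q)]
  · have sp : pr G S p q ≤ rv G S p + rv G S q := r_or fun _ _ => id
    have k1 := fun k hk => ih.rvB (k := k) hq hk hp hn (fun h => ha h.symm) (by grind) h3
    rcases (show deg G S q = 3 ∨ 4 ≤ deg G S q by omega) with e | e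
    · linarith [k1 4 (by omega), ih.rvB (k := 4) hp (by omega) hq hn.symm ha (by grind) e]
    · linarith [tb, k1 5 (by omega)]

theorem pairE (ih : IH G S) (hp : p ∈ S) (hq : q ∈ S) (hn : p ≠ q) (ha : ¬G.Adj p q)
    (h1 : 1 ≤ deg G S p) (h1' : 1 ≤ deg G S q) : pr G S p q ≤ 943 / 250 * t ^ 8 := by
  wlog h : deg G S p ≤ deg G S q generalizing p q
  · rw [pr_comm]; exact this hq hp hn.symm (fun h => ha h.symm) h1' h1 (by omega)
  rcases (show deg G S p = 1 ∨ deg G S p = 2 ∨ deg G S p = 3 ∨ 4 ≤ deg G S p by omega)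
    with e | e | e | e
  · linarith [tb, ih.low (k := 2) hp e.le (by omega), show pr G S p q ≤ _ from r_le_rho]
  · exact (pair2 ih hp hq hn ha e (by omega)).1
  · exact pair3 ih hp hq hn ha e (by omega)
  · linarith [tb, show pr G S p q ≤ rv G S p + rv G S q from r_or fun _ _ => id,
      ih.rv (k := 5) hp (by omega), ih.rv (k := 5) hq (by omega)]

theorem pairT (ih : IH G S) (hp : p ∈ S) (hq : q ∈ S) (hn : p ≠ q) (ha : ¬G.Adj p q) :
    pr G S p q ≤ t := by
  have h : pr G S p q ≤ _ := r_le_rho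
  by_cases h1 : deg G S p = 0
  · linarith [ih.low (k := 1) hp (by omega) (by omega)]
  by_cases h2 : deg G S q = 0
  · linarith [ih.low (k := 1) hq (by omega) (by omega)]
  linarith [tb, pairE ih hp hq hn ha (by omega) (by omega)]

theorem pair0 (ih : IH G S) (hp : p ∈ S) (hq : q ∈ S) (hn : p ≠ q) (ha : ¬G.Adj p q)
    (h0 : deg G S p = 0) (h3 : deg G S q ≤ 3) : rho G S ≤ 2 * t ^ 5 := by
  have := ih.rvK (k := 1) hp (by omega) (mem_rest.2 ⟨hq, hn.symm, ha⟩)
    ((deg_mono sdiff_subset).trans h3)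
  linarith [rho_le_rv (G := G) fun _ => forced hp (by omega)]

theorem pairA (ih : IH G S) (hp : p ∈ S) (hq : q ∈ S) (hn : p ≠ q) (ha : ¬G.Adj p q)
    (h3 : deg G S p ≤ 3) (h3' : deg G S q ≤ 3) : pr G S p q ≤ 943 / 250 * t ^ 8 := by
  have h : pr G S p q ≤ _ := r_le_rho
  by_cases h1 : deg G S p = 0
  · linarith [tb, pair0 ih hp hq hn ha h1 h3']
  by_cases h2 : deg G S q = 0
  · linarith [tb, pair0 ih hq hp hn.symm (fun h => ha h.symm) h2 h3]
  exact pairE ih hp hq hn ha (by omega) (by omega)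

theorem pairB (ih : IH G S) (hp : p ∈ S) (hq : q ∈ S) (hn : p ≠ q) (ha : ¬G.Adj p q)
    (h3 : deg G S p ≤ 2) (h3' : deg G S q ≤ 2) : pr G S p q ≤ 3 * t ^ 7 := by
  have h : pr G S p q ≤ _ := r_le_rho
  by_cases h1 : deg G S p = 0
  · linarith [tb, pair0 ih hp hq hn ha h1 (by omega)]
  by_cases h2 : deg G S q = 0
  · linarith [tb, pair0 ih hq hp hn.symm (fun h => ha h.symm) h2 (by omega)]
  by_cases h1' : deg G S p = 1
  · linarith [tb, ih.low (k := 2) hp (by omega) (by omega)]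
  by_cases h2' : deg G S q = 1
  · linarith [tb, ih.low (k := 2) hq (by omega) (by omega)]
  exact (pair2 ih hp hq hn ha (by omega) (by omega)).2 h3'

theorem pairC (ih : IH G S) (hp : p ∈ S) (hq : q ∈ S) (hn : p ≠ q)
    (h3 : deg G S p ≤ 1) (h3' : deg G S q ≤ 1) : pr G S p q ≤ t ^ 2 :=
  ih.force [p, q] [p, q] rfl (by simp) (by simpa)
    (fun D hD _ => by simp [forced hp h3 hD, forced hq h3' hD]) (by simp [hp, hq])

theorem hit2 (hA : All G S) (hW : W ⊆ S) (h : #W ≤ 2) : hit G S W ≤ 2 * t ^ 4 := by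
  by_cases h3 : ∃ w ∈ W, deg G S w ≤ 3
  · obtain ⟨w, hw, h3⟩ := h3
    exact r_le_rho.trans (hA.good.p3 w (hW hw) h3)
  · push Not at h3
    have := hA.ih.union (k := 5) h fun w hw => ⟨hW hw, by have := h3 w hw; omega⟩
    push_cast at this
    linarith [tb]

variable (G) in
/-- The set contains a triangle. -/
def Tri (W : Finset V) : Prop := ∃ x ∈ W, ∃ y ∈ W, ∃ z ∈ W, G.Adj x y ∧ G.Adj y z ∧ G.Adj x z

variable (G) in
/-- The set contains a triangle and has an outside neighbour of small degree. -/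
def Line (S W : Finset V) : Prop :=
  Tri G W ∧ ∃ x ∈ W, ∃ o ∈ S, o ∉ W ∧ G.Adj o x ∧ deg G S o ≤ 4

variable (G) in
/-- The set is a cycle whose diagonals have many neighbours. -/
def Block (S W : Finset V) : Prop := ∃ p q s u, W = {p, q, s, u} ∧ G.Adj p q ∧ G.Adj q s ∧
  G.Adj s u ∧ G.Adj u p ∧ 8 ≤ #{y ∈ S | y = p ∨ y = s ∨ G.Adj y p ∨ G.Adj y s} ∧
  8 ≤ #{y ∈ S | y = q ∨ y = u ∨ G.Adj y q ∨ G.Adj y u}

theorem Rook.card {f : Cell → V} (h : Rook G S f) :
    #{p | f p ∈ W} + #(W \ univ.image f) = #W := by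
  rw [← card_image_of_injective _ h.inj, ← card_inter_add_card_sdiff W (univ.image f)]
  congr 2
  ext x
  simp only [mem_image, mem_filter, mem_univ, true_and, mem_inter]
  exact ⟨fun ⟨p, h1, h2⟩ => ⟨h2 ▸ h1, p, h2⟩, fun ⟨h1, p, h2⟩ => ⟨p, h2 ▸ h1, h2⟩⟩

theorem Rook.rest {f g : Cell → V} (h : Rook G S f) (h' : Rook G S g) {p : Cell}
    (hp : g p ∉ univ.image f) : Rook G (S \ univ.image f) g := by
  have c : ∀ a c, H33.rk a c → g c ∈ univ.image f → g a ∈ univ.image f := fun a c hac hc => by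
    obtain ⟨s, -, hs⟩ := mem_image.1 hc
    obtain ⟨s', -, e⟩ := (h.adj s _ (h'.mem a)).1 (hs ▸ (h'.rk.2 hac).symm)
    exact e ▸ mem_image_of_mem _ (mem_univ _)
  have d : ∀ p q : Cell, ∃ s, H33.rk p s ∧ H33.rk s q := by decide
  refine ⟨h'.inj, fun q => mem_sdiff.2 ⟨h'.mem q, fun hq => ?_⟩,
    fun q x hx => h'.adj q x (mem_sdiff.1 hx).1⟩
  obtain ⟨s, h1, h2⟩ := d p q
  exact hp (c _ _ h1 (c _ _ h2 hq))

theorem Rook.union {f : Cell → V} (h : Rook G S f) (hA : All G S) (hW : W ⊆ S)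
    (h4 : ∀ w ∈ W, InRook G S w ∨ 5 ≤ deg G S w) {n : ℕ} (hn : #(W \ univ.image f) ≤ n) :
    H33.hit G (S \ univ.image f) (W \ univ.image f) ≤ n * t ^ 5 := by
  refine IH.union (fun T hT => hA T (hT.subset.trans sdiff_subset)) hn fun w hw => ?_
  have hw' := sdiff_subset_sdiff hW Subset.rfl hw
  rw [h.keep hw']
  exact ⟨hw', by rcases h4 w (mem_sdiff.1 hw).1 with e | e; exacts [by rw [e.deg], by omega]⟩

theorem Rook.five {f : Cell → V} (h : Rook G S f) (h4 : #W ≤ 4) :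
    #{i | ∃ p ∈ tr i, p ∈ ({p | f p ∈ W} : Finset Cell)} ≤ 5 ∨ Line G S W ∨ #W = 4 ∧ Block G S W := by
  have hc := h.card (W := W)
  rcases dec3 {p | f p ∈ W} (by omega) with e | ⟨p, hp, q, hq, s, hs, h1, h2, h3, o, ho, h5⟩ |
    ⟨p, hp, q, hq, s, hs, u, hu, e4, e, h1, h2, h3, h5, h6, h7⟩
  · exact .inl e
  · simp only [mem_filter, mem_univ, true_and] at hp hq hs ho
    exact .inr (.inl ⟨⟨_, hp, _, hq, _, hs, h.rk.2 h1, h.rk.2 h2, h.rk.2 h3⟩, _, hp, _, h.mem o, ho,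
      h.rk.2 h5, (InRook.deg ⟨f, h, o, rfl⟩).le⟩)
  · have key : ∀ p s : Cell, 8 ≤ #{y | y = p ∨ y = s ∨ H33.rk y p ∨ H33.rk y s} →
        8 ≤ #{y ∈ S | y = f p ∨ y = f s ∨ G.Adj y (f p) ∨ G.Adj y (f s)} := fun p s h8 =>
      h8.trans (card_le_card_of_injOn f (fun y hy => by
        simpa [h.mem, h.rk, h.inj.eq_iff] using hy) h.inj.injOn)
    refine .inr (.inr ⟨by omega, f p, f q, f s, f u, ?_, h.rk.2 h1, h.rk.2 h2, h.rk.2 h3, h.rk.2 h5,
      key _ _ h6, key _ _ h7⟩)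
    have e0 : W \ univ.image f = ∅ := card_eq_zero.1 (by omega)
    ext x
    constructor
    · intro hx
      obtain ⟨y, -, rfl⟩ := mem_image.1 (sdiff_eq_empty_iff_subset.1 e0 hx)
      have : y ∈ ({p, q, s, u} : Finset Cell) := e ▸ mem_filter.2 ⟨mem_univ _, hx⟩
      simpa [h.inj.eq_iff] using this
    · simp only [mem_filter, mem_univ, true_and] at hp hq hs hu
      simp only [mem_insert, mem_singleton]
      rintro (rfl | rfl | rfl | rfl) <;> assumption

theorem hit3' (hA : All G S) (hW : W ⊆ S) (h : #W ≤ 3)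
    (h4 : ∀ w ∈ W, InRook G S w ∨ 5 ≤ deg G S w) : hit G S W ≤ 3 * t ^ 6 ∨ Line G S W := by
  by_cases hr : ∃ w ∈ W, InRook G S w
  swap
  · push Not at hr
    exact .inl (hA.ih.union (k := 6) h fun w hw =>
      ⟨hW hw, by have := (h4 w hw).resolve_left (hr w hw); omega⟩)
  obtain ⟨w, hw, f, hf, p, rfl⟩ := hr
  have hc := hf.card (W := W)
  have h0 : 0 < #{p | f p ∈ W} := card_pos.2 ⟨p, by simpa⟩
  have h2 := dec2 {p | f p ∈ W}
  rcases (show #{p | f p ∈ W} = 1 ∨ #{p | f p ∈ W} = 2 ∨ #{p | f p ∈ W} = 3 by omega)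
    with e | e | e
  · have := hf.hit (k := 2) hA (by push_cast; linarith [tb])
      (hf.union (n := 2) hA hW h4 (by omega)) (by omega)
    push_cast at this
    exact .inl (by linarith [tb])
  · have := hf.hit (k := 4) hA (by push_cast; linarith [tb])
      (hf.union (n := 1) hA hW h4 (by omega)) (by omega)
    push_cast at this
    exact .inl (by linarith [tb])
  · rcases hf.five (W := W) (by omega) with e | e | e
    · have := hf.hit (k := 5) hA (by simp) (hf.union (n := 0) hA hW h4 (by omega)) e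
      push_cast at this
      exact .inl (by linarith [tb])
    · exact .inr e
    · omega

theorem hit3 (hA : All G S) (hW : W ⊆ S) (h : #W ≤ 3) : hit G S W ≤ 943 / 1000 ∨ Line G S W := by
  by_cases h4 : ∀ w ∈ W, InRook G S w ∨ 5 ≤ deg G S w
  · exact (hit3' hA hW h h4).imp_left fun h => by linarith [tb]
  · push Not at h4
    obtain ⟨w, hw, h1, h2⟩ := h4
    exact .inl (r_le_rho.trans (hA.good.p4 w (hW hw) (by omega) h1))

theorem hit4 (hA : All G S) (hW : W ⊆ S) (h : #W ≤ 4) (h' : #W = 4 → ∃ w ∈ W, deg G S w ≤ 4) :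
    hit G S W ≤ 943 / 1000 ∨ Tri G W ∨ Block G S W := by
  by_cases h3 : #W ≤ 3
  · exact (hit3 hA hW h3).imp_right fun h => .inl h.1
  by_cases h4 : ∀ w ∈ W, InRook G S w ∨ 5 ≤ deg G S w
  swap
  · push Not at h4
    obtain ⟨w, hw, h1, h2⟩ := h4
    exact .inl (r_le_rho.trans (hA.good.p4 w (hW hw) (by omega) h1))
  obtain ⟨w, hw, hd⟩ := h' (by omega)
  obtain ⟨f, hf, p, rfl⟩ := (h4 w hw).resolve_right (by omega)
  have hc := hf.card (W := W)
  have h0 : 0 < #{p | f p ∈ W} := card_pos.2 ⟨p, by simpa⟩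
  have h2 := dec2 {p | f p ∈ W}
  rcases (show #{p | f p ∈ W} = 1 ∨ #{p | f p ∈ W} = 2 ∨ 3 ≤ #{p | f p ∈ W} by omega)
    with e | e | e
  · rcases hit3' (fun T hT => hA T (hT.trans sdiff_subset))
      (sdiff_subset_sdiff hW (Subset.refl (univ.image f))) (by omega) (fun w hw => by
        rw [hf.keep (sdiff_subset_sdiff hW Subset.rfl hw)]
        exact (h4 w (mem_sdiff.1 hw).1).imp_left fun ⟨g, hg, s, e⟩ =>
          ⟨g, hf.rest hg (e ▸ (mem_sdiff.1 hw).2), s, e⟩) with e' | ⟨⟨x, hx, y, hy, z, hz, e'⟩, -⟩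
    · have := hf.hit (k := 2) hA (by linarith [tb]) e' (by omega)
      push_cast at this
      exact .inl (by linarith [tb])
    · exact .inr (.inl ⟨x, (mem_sdiff.1 hx).1, y, (mem_sdiff.1 hy).1, z, (mem_sdiff.1 hz).1, e'⟩)
  · have := hf.hit (k := 4) hA (by push_cast; linarith [tb])
      (hf.union (n := 2) hA hW h4 (by omega)) (by omega)
    push_cast at this
    exact .inl (by linarith [tb])
  · rcases hf.five h with e | e | e
    · have := hf.hit (k := 5) hA (by push_cast; linarith [tb])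
        (hf.union (n := 1) hA hW h4 (by omega)) e
      push_cast at this
      exact .inl (by linarith [tb])
    · exact .inr (.inl e.1)
    · exact .inr (.inr e.2)

end Pool.Agent.MP_b8b299_co.H33
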